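import Pool.Agent.Helper33.KG6

/-!
# Kähler pieces of dimension six in block sums and multiply warped types

Definitions (`Pool/Agent/Helper33/KG4.lean`, `KG6.lean`):

* `CxStr J`: `J` is an orthogonal complex structure; `KaeSym J R`: `R(Jx,Jy,z,w) = R(x,y,z,w)`, the
  symmetry of the curvature tensors of Kähler manifolds. `R(x,y,x,y)` is the sectional curvature and
  `R(x,Jx,y,Jy)` the holomorphic bisectional curvature.
* `Piece W S`: `dim W ≤ 5`, or `dim W = 6` and `W` has an orthogonal complex structure for which the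
  restriction of `S` to `W` is a Kähler tensor.
* `KBlocks δ R`: the space is an orthogonal sum of blocks `U i` of any dimensions;
  `R = ∑ S i - ∑ (x_k ∧ y_k)² - δ · (unit tensor)` where `S i` is a curvature tensor of nonpositive
  sectional curvature living on a subspace `W i` of `U i` with `Piece (W i) (S i)`, and each `x_k` and
  each `y_k` lies in one of the blocks.
* `KWarp δ R`: the tensors of multiply warped type, `∑ S i + ∑_{i<j} h_ij ∧ k_ij`, with
  `Piece (U i) (S i)`, whose sectional curvatures are at most `-δ`.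

(1) In every even dimension, `(-1)^m` times the Gauss–Bonnet–Chern integrand of these tensors is at
least its value for constant curvature `-δ`. (2), (3) Integrated forms.
(4) In real dimension six the integrand of a Kähler tensor of nonpositive (negative) bisectional
curvature is nonpositive (negative). (5) Integrated form of (4).
-/

set_option autoImplicit false

namespace Pool.Agent.Results.MP_5a30bb_gt.KaehlerBlocks

open Pool.Agent.W666.GB Pool.Agent.W669.HD Pool.Agent.Y519.HB Pool.Agent.Helper33.KG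

theorem result :
    (∀ (m : ℕ) (V : Type) [NormedAddCommGroup V] [InnerProductSpace ℝ V]
      (e : OrthonormalBasis (Fin m × Bool) ℝ V) (R : V → V → V → V → ℝ) (δ : ℝ),
      0 ≤ δ → KBlocks δ R ∨ KWarp δ R → roundGB m δ ≤ (-1) ^ m * gbc e R) ∧
    (∀ (m : ℕ) (M : Type) [MeasurableSpace M] (μ : MeasureTheory.Measure M) (K : CurvField m M),
      (∀ p, KBlocks 0 (K.R p) ∨ KWarp 0 (K.R p)) → 0 ≤ (-1) ^ m * ∫ p, K.gb p ∂μ) ∧
    (∀ (m : ℕ) (M : Type) [MeasurableSpace M] (μ : MeasureTheory.Measure M)
      [MeasureTheory.IsFiniteMeasure μ] (K : CurvField m M) (δ : ℝ),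
      MeasureTheory.Integrable K.gb μ → 0 ≤ δ → (∀ p, KBlocks δ (K.R p) ∨ KWarp δ (K.R p)) →
        roundGB m δ * μ.real Set.univ ≤ (-1) ^ m * ∫ p, K.gb p ∂μ) ∧
    (∀ (V : Type) [NormedAddCommGroup V] [InnerProductSpace ℝ V]
      (e : OrthonormalBasis (Fin 3 × Bool) ℝ V) (R : V → V → V → V → ℝ) (J : V →ₗ[ℝ] V),
      AlgCurv R → CxStr J → KaeSym J R →
        ((∀ x y, R x (J x) y (J y) ≤ 0) → gbc e R ≤ 0) ∧
        ((∀ x y, x ≠ 0 → y ≠ 0 → R x (J x) y (J y) < 0) → gbc e R < 0)) ∧
    (∀ (M : Type) [MeasurableSpace M] (μ : MeasureTheory.Measure M) (K : CurvField 3 M)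
      (J : ∀ p, K.V p →ₗ[ℝ] K.V p), (∀ p, CxStr (J p)) → (∀ p, KaeSym (J p) (K.R p)) →
        ((∀ p x y, K.R p x (J p x) y (J p y) ≤ 0) → ∫ p, K.gb p ∂μ ≤ 0) ∧
        (μ ≠ 0 → MeasureTheory.Integrable K.gb μ →
          (∀ p x y, x ≠ 0 → y ≠ 0 → K.R p x (J p x) y (J p y) < 0) → ∫ p, K.gb p ∂μ < 0)) := by
  refine ⟨fun m V _ _ e R δ hδ h => kcls_bound e hδ h, fun m M _ μ K h => ?_,
    fun m M _ μ _ K δ hi hδ h => ?_,
    fun V _ _ e R J hR hJ hK => ⟨fun hb => six_nonpos e hR hJ hK hb,
      fun hb => six_neg e hR hJ hK hb⟩,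
    fun M _ μ K J hJ hK => ⟨fun hb => ?_, fun hμ hi hb => ?_⟩⟩
  · rw [← MeasureTheory.integral_const_mul]
    refine MeasureTheory.integral_nonneg fun p => ?_
    exact (roundGB_nonneg le_rfl).trans (kcls_bound (K.e p) le_rfl (h p))
  · rw [← MeasureTheory.integral_const_mul]
    have h1 : roundGB m δ * μ.real Set.univ = ∫ _, roundGB m δ ∂μ := by
      rw [MeasureTheory.integral_const, smul_eq_mul, mul_comm]
    rw [h1]
    refine MeasureTheory.integral_mono (MeasureTheory.integrable_const _) (hi.const_mul _)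
      fun p => ?_
    exact kcls_bound (K.e p) hδ (h p)
  · refine MeasureTheory.integral_nonpos fun p => ?_
    exact six_nonpos (K.e p) (K.curv p) (hJ p) (hK p) (hb p)
  · have hneg : ∀ p, K.gb p < 0 := fun p =>
      six_neg (K.e p) (K.curv p) (hJ p) (hK p) (hb p)
    have hi' : MeasureTheory.Integrable (fun p => -K.gb p) μ := hi.neg
    have h1 : 0 < ∫ p, -K.gb p ∂μ := by
      rw [MeasureTheory.integral_pos_iff_support_of_nonneg
        (fun p => by simpa using (hneg p).le) hi']
      have : Function.support (fun p => -K.gb p) = Set.univ := by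
        ext p
        simp [(hneg p).ne]
      rw [this]
      exact MeasureTheory.Measure.measure_univ_pos.2 hμ
    rw [MeasureTheory.integral_neg] at h1
    linarith

end Pool.Agent.Results.MP_5a30bb_gt.KaehlerBlocks
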