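import Pool.Agent.W666.GB.Main

/-!
# The Hopf sign for nearly constant negative curvature, with dimension-free constants, in all even dimensions

Let `n = 2 m`, let `R` be an algebraic curvature tensor in dimension `n` with scalar curvature
`- n (n - 1) κ`, `κ > 0`, and let `G` be the value of the Gauss-Bonnet-Chern integrand for constant
curvature `κ`. If the Hilbert-Schmidt norms of `R - R_κ` and of its Ricci contraction
(`R_κ` of constant curvature `-κ`) are at most `10⁻⁶ κ n`, then

`|(-1) ^ m GB(R) - G| ≤ G / 5`.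

The norm of `R_κ` itself is `κ √(2 n (n - 1))`, so the first condition says that `R` is close to constant
curvature up to a fixed proportion, independent of the dimension, in the mean square (L²) sense;
nothing is assumed on the sign of any single sectional curvature. Both conditions hold if the sectional
curvatures are pinched by `1 - c / √n`, `c = (3 / 4) 10⁻⁶`; conditions which make the curvature
operator negative need pinching of the order `1 - c / n`. The integrated forms bound the Euler
characteristic of a closed Riemannian manifold.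

The proof (random sign vectors, hypercontractivity, mixed discriminants and Hadamard's determinant
inequality) is in `Pool/Agent/W666/GB`, a part of the starting library not used by any result so far.
-/

set_option autoImplicit false

namespace Pool.Agent.Results.MP_5a30bb_gt.NearlyConstantAllDims

open MeasureTheory
open Pool.Agent.W666.GB

/-- The scalar curvature of `R` is `- n (n - 1) κ`, `n = 2 m`, and the Hilbert-Schmidt norms of the
difference of `R` and of the tensor of constant curvature `-κ`, and of the Ricci contraction of this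
difference, are at most `10⁻⁶ κ n`. -/
def MeanSquareNear {V : Type} [NormedAddCommGroup V] [InnerProductSpace ℝ V] {m : ℕ}
    (e : OrthonormalBasis (Fin m × Bool) ℝ V) (R : V → V → V → V → ℝ) (κ : ℝ) : Prop :=
  scal e R = -(κ * (2 * m * (2 * m - 1))) ∧
    devR e R κ ≤ (1 / 10 ^ 6 * κ * (2 * m)) ^ 2 ∧
    devRic e R κ ≤ (1 / 10 ^ 6 * κ * (2 * m)) ^ 2

theorem pos_int {M : Type} [MeasurableSpace M] (μ : Measure M) (f : M → ℝ) (h0 : ∀ p, 0 < f p)
    (hf : Integrable f μ) (hμ : μ ≠ 0) : 0 < ∫ p, f p ∂μ := by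
  rw [integral_pos_iff_support_of_nonneg (fun p => (h0 p).le) hf]
  have h1 : Function.support f = Set.univ := by
    ext p
    simp [(h0 p).ne']
  rw [h1]
  exact (Measure.measure_univ_ne_zero.2 hμ).bot_lt

/-- **The Hopf sign for nearly constant negative curvature in all even dimensions.** -/
theorem result :
    -- closeness in mean square
    (∀ (m : ℕ) (V : Type) [NormedAddCommGroup V] [InnerProductSpace ℝ V]
      (e : OrthonormalBasis (Fin m × Bool) ℝ V) (R : V → V → V → V → ℝ) (κ : ℝ),
      AlgCurv R → 0 < κ → MeanSquareNear e R κ →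
      |(-1) ^ m * gbc e R - roundGB m κ| ≤ 1 / 5 * roundGB m κ ∧ 0 < (-1) ^ m * gbc e R) ∧
    -- pinched sectional curvatures
    (∀ (m : ℕ) (V : Type) [NormedAddCommGroup V] [InnerProductSpace ℝ V]
      (e : OrthonormalBasis (Fin m × Bool) ℝ V) (R : V → V → V → V → ℝ) (a b : ℝ),
      0 < m → AlgCurv R → 0 < a → SecIn R (-b) (-a) →
      b - a ≤ 3 / 4 * (1 / 10 ^ 6) * a / Real.sqrt (2 * m) →
      4 / 5 * roundGB m a ≤ (-1) ^ m * gbc e R) ∧
    -- the integrals (for a closed manifold: the Euler characteristic), mean square form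
    (∀ (m : ℕ) (M : Type) [MeasurableSpace M] (μ : Measure M) (K : CurvField m M) (κ : M → ℝ),
      Integrable K.gb μ → (∀ p, 0 < κ p ∧ MeanSquareNear (K.e p) (K.R p) (κ p)) →
        (μ ≠ 0 → 0 < (-1) ^ m * ∫ p, K.gb p ∂μ) ∧
        (Integrable (fun p => roundGB m (κ p)) μ →
          |(-1) ^ m * (∫ p, K.gb p ∂μ) - ∫ p, roundGB m (κ p) ∂μ| ≤
            1 / 5 * ∫ p, roundGB m (κ p) ∂μ)) ∧
    -- the integrals, pinched sectional curvatures
    (∀ (m : ℕ) (M : Type) [MeasurableSpace M] (μ : Measure M) (K : CurvField m M) (a b : M → ℝ),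
      0 < m → Integrable K.gb μ →
      (∀ p, 0 < a p ∧ SecIn (K.R p) (-(b p)) (-(a p)) ∧
        b p - a p ≤ 3 / 4 * (1 / 10 ^ 6) * a p / Real.sqrt (2 * m)) →
        (μ ≠ 0 → 0 < (-1) ^ m * ∫ p, K.gb p ∂μ) ∧
        (Integrable (fun p => roundGB m (a p)) μ →
          4 / 5 * ∫ p, roundGB m (a p) ∂μ ≤ (-1) ^ m * ∫ p, K.gb p ∂μ)) := by
  refine ⟨?_, ?_, ?_, ?_⟩
  · intro m V _ _ e R κ hR hκ h
    have h1 : Near e R κ := ⟨h.1, Or.inl h.2⟩
    exact ⟨near_close e hR hκ h1, near_pos e hR hκ h1⟩
  · intro m V _ _ e R a b hm hR ha hs hab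
    exact sec_pinched e hm hR ha hs hab
  · intro m M _ μ K κ hi h
    have h1 : ∀ p, |(-1) ^ m * K.gb p - roundGB m (κ p)| ≤ 1 / 5 * roundGB m (κ p) := fun p =>
      near_close (K.e p) (K.curv p) (h p).1 ⟨(h p).2.1, Or.inl (h p).2.2⟩
    have hi' : Integrable (fun p => (-1) ^ m * K.gb p) μ := hi.const_mul _
    have hint : ∫ p, (-1) ^ m * K.gb p ∂μ = (-1) ^ m * ∫ p, K.gb p ∂μ := integral_const_mul _ _
    refine ⟨fun hμ => ?_, fun hr => ?_⟩
    · rw [← hint]
      exact pos_int μ _ (fun p => near_pos (K.e p) (K.curv p) (h p).1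
        ⟨(h p).2.1, Or.inl (h p).2.2⟩) hi' hμ
    · rw [← hint, ← integral_sub hi' hr, ← integral_const_mul, ← Real.norm_eq_abs]
      refine (norm_integral_le_integral_norm _).trans ?_
      exact integral_mono (hi'.sub hr).norm (hr.const_mul _) fun p => h1 p
  · intro m M _ μ K a b hm hi h
    have h1 : ∀ p, 4 / 5 * roundGB m (a p) ≤ (-1) ^ m * K.gb p := fun p =>
      sec_pinched (K.e p) hm (K.curv p) (h p).1 (h p).2.1 (h p).2.2
    have hi' : Integrable (fun p => (-1) ^ m * K.gb p) μ := hi.const_mul _
    have hint : ∫ p, (-1) ^ m * K.gb p ∂μ = (-1) ^ m * ∫ p, K.gb p ∂μ := integral_const_mul _ _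
    refine ⟨fun hμ => ?_, fun hr => ?_⟩
    · rw [← hint]
      refine pos_int μ _ (fun p => ?_) hi' hμ
      have h2 := roundGB_pos (m := m) (h p).1
      have h3 := h1 p
      linarith
    · rw [← hint, ← integral_const_mul]
      exact integral_mono (hr.const_mul _) hi' fun p => h1 p

end Pool.Agent.Results.MP_5a30bb_gt.NearlyConstantAllDims
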