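import Mathlib
import Pool.Agent.V11287.KN.GB

set_option autoImplicit false

/-!
# The Hopf sign for curvature tensors in the quadratic span of two symmetric forms

Let `h`, `k` be symmetric bilinear forms on a Euclidean space `V` and

`T = α (h ∧ h) + 2 β (h ∧ k) + γ (k ∧ k)`,

`∧` being the Kulkarni–Nomizu product.  By the Gauss equation the curvature tensors of the spacelike
submanifolds of codimension two of the flat spaces with a metric of any signature are of this form,
and so are those of the spacelike hypersurfaces of the (pseudo-Riemannian) space forms, of the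
locally conformally flat manifolds, and all the products `h ∧ k`.

(1) Suppose that the quadratic form `α s² + 2 β s t + γ t²` is not positive definite.  The sectional
curvatures of `T` are nonpositive if and only if `T` is minus a sum of squares of decomposable
two-forms (so the curvature operator is nonpositive).  For positive definite quadratic forms
(codimension two in a Euclidean space) this is not so.
(2) In all even dimensions `2 m`, for every quadratic form and every `δ ≥ 0`, if the sectional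
curvatures of `T` are nonpositive then `(-1)^m` times the Gauss–Bonnet–Chern integrand of
`T - δ · (unit tensor)` is at least its value for constant curvature `-δ`.
(3) The same for sums `S + ∑ P_j - δ · (unit tensor)`, where `S` is such a tensor or any curvature
tensor with the Hopf sign on all even-dimensional subspaces, and the `P_j` are finitely many tensors
as in (1), with arbitrary pairs of forms.
(4) For tensors of multiply warped type, blocks with tensors as in (2), of any dimension, are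
admissible.
(5) Superadditivity of the integrand under the addition of tensors as in (1); in dimension six this
holds for every `S` of nonpositive sectional curvature.
(6), (7) Integrated forms of (2), (3), (4).

Proof of (1): after dividing by the common kernel, either `h` and `k` have a common null vector `x`,
and then the inequality `K(x, y) ≤ 0` makes `h(x, ·)`, `k(x, ·)` proportional and determines the
tensor; or there is none, and then by the theorem on pencils without common null vectors some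
combination of `h` and `k` is definite in dimension at least three, and both forms are diagonal in
the same basis.
-/

namespace Pool.Agent.Results.MP_5a30bb_gt.PencilTensors

open MeasureTheory Pool.Agent.W666.GB Pool.Agent.W669.HD Pool.Agent.Y519.HB

section defs

variable {V : Type} [NormedAddCommGroup V] [InnerProductSpace ℝ V]

/-- Symmetric bilinear forms. -/
structure Sym (h : V → V → ℝ) : Prop where
  add : ∀ x x' y, h (x + x') y = h x y + h x' y
  smul : ∀ (t : ℝ) x y, h (t • x) y = t * h x y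
  symm : ∀ x y, h x y = h y x

/-- `α (h ∧ h) + 2 β (h ∧ k) + γ (k ∧ k)`, `∧` being the Kulkarni–Nomizu product. -/
def pencil (α β γ : ℝ) (h k : V → V → ℝ) (a b c d : V) : ℝ :=
  α * kn h h a b c d + 2 * β * kn h k a b c d + γ * kn k k a b c d

/-- The tensors of nonpositive sectional curvature in the quadratic span of two symmetric forms. -/
def Pencil (T : V → V → V → V → ℝ) : Prop :=
  ∃ (α β γ : ℝ) (h k : V → V → ℝ), Sym h ∧ Sym k ∧
    (∀ a b c d, T a b c d = pencil α β γ h k a b c d) ∧ ∀ a b, T a b a b ≤ 0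

/-- The same with a quadratic form `α s² + 2 β s t + γ t²` which is not positive definite. -/
def PencilN (T : V → V → V → V → ℝ) : Prop :=
  ∃ (α β γ : ℝ) (h k : V → V → ℝ), (α * γ ≤ β ^ 2 ∨ α ≤ 0) ∧ Sym h ∧ Sym k ∧
    (∀ a b c d, T a b c d = pencil α β γ h k a b c d) ∧ ∀ a b, T a b a b ≤ 0

/-- `S` plus finitely many tensors in `PencilN` minus `δ` times the unit tensor, where `S` is in
`Pencil`, or has the Hopf sign on all even-dimensional subspaces. -/
def Sums (δ : ℝ) (R : V → V → V → V → ℝ) : Prop :=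
  ∃ (S : V → V → V → V → ℝ) (q : ℕ) (P : Fin q → V → V → V → V → ℝ),
    (Pencil S ∨ (AlgCurv S ∧ HopfOn ⊤ S)) ∧ (∀ j, PencilN (P j)) ∧
    ∀ a b c d, R a b c d = S a b c d + (∑ j, P j a b c d) - δ * unitT a b c d

/-- Multiply warped type (`WarpType` of the starting library), with blocks that have dimension at
most five or have a tensor in `Pencil`: a tensor on each block and one Kulkarni–Nomizu product for
each pair of blocks. -/
def Warped (δ : ℝ) (R : V → V → V → V → ℝ) : Prop :=
  ∃ (r : ℕ) (U : Fin r → Submodule ℝ V) (S : Fin r → V → V → V → V → ℝ)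
    (h k : Fin r → Fin r → V → V → ℝ), OrthSum U ∧
    (∀ i, (Module.finrank ℝ (U i) ≤ 5 ∧ AlgCurv (S i)) ∨ Pencil (S i)) ∧
    (∀ i, LivesOn (U i) (S i)) ∧
    (∀ i j, SymForm (U i) (h i j)) ∧ (∀ i j, SymForm (U j) (k i j)) ∧
    (∀ a b c d, R a b c d + δ * unitT a b c d = (∑ i, S i a b c d) +
      ∑ i, ∑ j, if i < j then kn (h i j) (k i j) a b c d else 0) ∧
    ∀ a b, R a b a b + δ * unitT a b a b ≤ 0

end defs

section proofs

variable {V : Type} [NormedAddCommGroup V] [InnerProductSpace ℝ V]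

theorem Sym.sy {h : V → V → ℝ} (hh : Sym h) : Pool.Agent.V11287.KN.Sy h :=
  ⟨hh.add, hh.smul, hh.symm⟩

theorem pencil_eq (α β γ : ℝ) (h k : V → V → ℝ) :
    pencil α β γ h k = Pool.Agent.V11287.KN.qf α β γ h k := rfl

theorem Pencil.curv {T : V → V → V → V → ℝ} (hT : Pencil T) : AlgCurv T := by
  obtain ⟨α, β, γ, h, k, hh, hk, he, -⟩ := hT
  have e : T = Pool.Agent.V11287.KN.qf α β γ h k := by
    funext a b c d
    exact he a b c d
  rw [e]
  exact Pool.Agent.V11287.KN.qf_curv hh.sy hk.sy α β γ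

theorem Pencil.hopf [FiniteDimensional ℝ V] {T : V → V → V → V → ℝ} (hT : Pencil T)
    (U : Submodule ℝ V) : HopfOn U T := by
  obtain ⟨α, β, γ, h, k, hh, hk, he, hs⟩ := hT
  have e : T = Pool.Agent.V11287.KN.qf α β γ h k := by
    funext a b c d
    exact he a b c d
  rw [e] at hs ⊢
  exact Pool.Agent.V11287.KN.pencil_hopf hh.sy hk.sy hs U

theorem Pencil.bound {m : ℕ} (e : OrthonormalBasis (Fin m × Bool) ℝ V) {δ : ℝ} (hδ : 0 ≤ δ)
    {T : V → V → V → V → ℝ} (hT : Pencil T) :
    roundGB m δ ≤ (-1) ^ m * gbc e (fun a b c d => T a b c d - δ * unitT a b c d) := by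
  obtain ⟨α, β, γ, h, k, hh, hk, he, hs⟩ := hT
  have e : T = Pool.Agent.V11287.KN.qf α β γ h k := by
    funext a b c d
    exact he a b c d
  rw [e] at hs ⊢
  exact Pool.Agent.V11287.KN.pencil_bound _ hh.sy hk.sy hδ hs

theorem PencilN.sq [FiniteDimensional ℝ V] {T : V → V → V → V → ℝ} (hT : PencilN T) :
    ∃ (n : ℕ) (x y : Fin n → V), ∀ a b c d, T a b c d = -∑ i, sqDec (x i) (y i) a b c d := by
  obtain ⟨α, β, γ, h, k, hq, hh, hk, he, hs⟩ := hT
  have e : T = Pool.Agent.V11287.KN.qf α β γ h k := by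
    funext a b c d
    exact he a b c d
  rw [e] at hs ⊢
  exact Pool.Agent.V11287.KN.negSq_sqDec (Pool.Agent.V11287.KN.span_negSq hh.sy hk.sy hq hs)

theorem sums_bound {m : ℕ} (e : OrthonormalBasis (Fin m × Bool) ℝ V) {δ : ℝ} (hδ : 0 ≤ δ)
    {R : V → V → V → V → ℝ} (hR : Sums δ R) : roundGB m δ ≤ (-1) ^ m * gbc e R := by
  have hfin : FiniteDimensional ℝ V := e.toBasis.finiteDimensional_of_finite
  obtain ⟨S, q, P, hS, hP, hR⟩ := hR
  have h1 : AlgCurv S ∧ HopfOn ⊤ S := by
    rcases hS with h | h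
    · exact ⟨h.curv, h.hopf ⊤⟩
    · exact h
  obtain ⟨n, x, y, hxy⟩ := Pool.Agent.V11287.KN.sum_sq fun j => (hP j).sq
  refine Pool.Agent.V11287.KN.add_bound e hδ h1.1 h1.2 (x := x) (y := y) fun a b c d => ?_
  rw [hR, hxy]
  ring

theorem warped_type [FiniteDimensional ℝ V] {δ : ℝ} {R : V → V → V → V → ℝ} (hR : Warped δ R) :
    WarpType δ R := by
  obtain ⟨r, U, S, h, k, hO, hd, hL, hh, hk, hR, hK⟩ := hR
  refine ⟨r, U, S, h, k, hO, fun i => ?_, fun i => ?_, hL, hh, hk, hR, hK⟩
  · rcases hd i with h1 | h1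
    · exact Or.inl h1.1
    · exact Or.inr (h1.hopf (U i))
  · rcases hd i with h1 | h1
    · exact h1.2
    · exact h1.curv

theorem warped_bound {m : ℕ} (e : OrthonormalBasis (Fin m × Bool) ℝ V) {δ : ℝ} (hδ : 0 ≤ δ)
    {R : V → V → V → V → ℝ} (hR : Warped δ R) : roundGB m δ ≤ (-1) ^ m * gbc e R := by
  have hfin : FiniteDimensional ℝ V := e.toBasis.finiteDimensional_of_finite
  exact cls_bound e hδ (Or.inr (Or.inr (warped_type hR)))

theorem all_bound {m : ℕ} (e : OrthonormalBasis (Fin m × Bool) ℝ V) {δ : ℝ} (hδ : 0 ≤ δ)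
    {R : V → V → V → V → ℝ}
    (hR : Pencil (fun a b c d => R a b c d + δ * unitT a b c d) ∨ Sums δ R ∨ Warped δ R) :
    roundGB m δ ≤ (-1) ^ m * gbc e R := by
  rcases hR with h | h | h
  · have h1 := h.bound e hδ
    simpa using h1
  · exact sums_bound e hδ h
  · exact warped_bound e hδ h

theorem super_aux {n : ℕ} [FiniteDimensional ℝ V] {δ : ℝ} {T : V → V → V → V → ℝ}
    {P : Fin n → V → V → V → V → ℝ} (hP : ∀ j, PencilN (P j))
    (hT : ∀ a b c d, T a b c d = (∑ j, P j a b c d) - δ * unitT a b c d) :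
    ∃ (q : ℕ) (x y : Fin q → V), ∀ a b c d,
      T a b c d = -(∑ i, sqDec (x i) (y i) a b c d) - δ * unitT a b c d := by
  obtain ⟨q, x, y, hxy⟩ := Pool.Agent.V11287.KN.sum_sq fun j => (hP j).sq
  exact ⟨q, x, y, fun a b c d => by rw [hT, hxy]⟩

end proofs

/-- See the text at the head of the file. -/
theorem result :
    (∀ (V : Type) [NormedAddCommGroup V] [InnerProductSpace ℝ V] [FiniteDimensional ℝ V]
      (h k : V → V → ℝ) (α β γ : ℝ), Sym h → Sym k → (α * γ ≤ β ^ 2 ∨ α ≤ 0) →
      ((∀ a b, pencil α β γ h k a b a b ≤ 0) ↔ ∃ (n : ℕ) (x y : Fin n → V), ∀ a b c d,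
        pencil α β γ h k a b c d = -∑ i, sqDec (x i) (y i) a b c d)) ∧
    (∀ (m : ℕ) (V : Type) [NormedAddCommGroup V] [InnerProductSpace ℝ V]
      (e : OrthonormalBasis (Fin m × Bool) ℝ V) (T : V → V → V → V → ℝ) (δ : ℝ), 0 ≤ δ →
      Pencil T →
      roundGB m δ ≤ (-1) ^ m * gbc e (fun a b c d => T a b c d - δ * unitT a b c d)) ∧
    (∀ (m : ℕ) (V : Type) [NormedAddCommGroup V] [InnerProductSpace ℝ V]
      (e : OrthonormalBasis (Fin m × Bool) ℝ V) (R : V → V → V → V → ℝ) (δ : ℝ), 0 ≤ δ →
      Sums δ R → roundGB m δ ≤ (-1) ^ m * gbc e R) ∧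
    (∀ (m : ℕ) (V : Type) [NormedAddCommGroup V] [InnerProductSpace ℝ V]
      (e : OrthonormalBasis (Fin m × Bool) ℝ V) (R : V → V → V → V → ℝ) (δ : ℝ), 0 ≤ δ →
      Warped δ R → roundGB m δ ≤ (-1) ^ m * gbc e R) ∧
    ((∀ (m : ℕ) (V : Type) [NormedAddCommGroup V] [InnerProductSpace ℝ V]
      (e : OrthonormalBasis (Fin m × Bool) ℝ V) (S T : V → V → V → V → ℝ) (n : ℕ)
      (P : Fin n → V → V → V → V → ℝ) (δ : ℝ), 0 < m → 0 ≤ δ → AlgCurv S →
      (∀ k < m, ∀ (E : Submodule ℝ V) (e : OrthonormalBasis (Fin k × Bool) ℝ E),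
        0 ≤ (-1) ^ k * gbc e (fun x y z w : E => S x y z w)) →
      (∀ j, PencilN (P j)) →
      (∀ a b c d, T a b c d = (∑ j, P j a b c d) - δ * unitT a b c d) →
      (-1) ^ m * gbc e S + (-1) ^ m * gbc e T ≤ (-1) ^ m * gbc e (addT S T)) ∧
    (∀ (V : Type) [NormedAddCommGroup V] [InnerProductSpace ℝ V]
      (e : OrthonormalBasis (Fin 3 × Bool) ℝ V) (S T : V → V → V → V → ℝ) (n : ℕ)
      (P : Fin n → V → V → V → V → ℝ) (δ : ℝ), 0 ≤ δ → AlgCurv S → (∀ a b, S a b a b ≤ 0) →
      (∀ j, PencilN (P j)) →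
      (∀ a b c d, T a b c d = (∑ j, P j a b c d) - δ * unitT a b c d) →
      - gbc e S - gbc e T ≤ - gbc e (addT S T))) ∧
    (∀ (m : ℕ) (M : Type) [MeasurableSpace M] (μ : Measure M) (K : CurvField m M),
      (∀ p, Pencil (K.R p) ∨ Sums 0 (K.R p) ∨ Warped 0 (K.R p)) →
        0 ≤ (-1) ^ m * ∫ p, K.gb p ∂μ) ∧
    (∀ (m : ℕ) (M : Type) [MeasurableSpace M] (μ : Measure M) [IsFiniteMeasure μ]
      (K : CurvField m M) (δ : ℝ), Integrable K.gb μ → 0 ≤ δ →
      (∀ p, Pencil (fun a b c d => K.R p a b c d + δ * unitT a b c d) ∨ Sums δ (K.R p) ∨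
        Warped δ (K.R p)) →
        roundGB m δ * μ.real Set.univ ≤ (-1) ^ m * ∫ p, K.gb p ∂μ) := by
  refine ⟨?_, fun _ _ _ _ e _ _ hδ hT => hT.bound e hδ,
    fun _ _ _ _ e _ _ hδ hR => sums_bound e hδ hR,
    fun _ _ _ _ e _ _ hδ hR => warped_bound e hδ hR, ⟨?_, ?_⟩, ?_, ?_⟩
  · intro V _ _ _ h k α β γ hh hk hq
    constructor
    · intro hs
      exact PencilN.sq ⟨α, β, γ, h, k, hq, hh, hk, fun _ _ _ _ => rfl, hs⟩
    · rintro ⟨n, x, y, hxy⟩ a b
      rw [hxy]
      have : 0 ≤ ∑ i, sqDec (x i) (y i) a b a b :=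
        Finset.sum_nonneg fun i _ => mul_self_nonneg _
      linarith
  · intro m V _ _ e S T n P δ hm hδ hS hH hP hT
    have hfin : FiniteDimensional ℝ V := e.toBasis.finiteDimensional_of_finite
    obtain ⟨q, x, y, hxy⟩ := super_aux hP hT
    exact (mono_super hm e hδ hS hH hxy).1
  · intro V _ _ e S T n P δ hδ hS hs hP hT
    have hfin : FiniteDimensional ℝ V := e.toBasis.finiteDimensional_of_finite
    obtain ⟨q, x, y, hxy⟩ := super_aux hP hT
    exact (six_super e hδ hS hs hxy).1
  · intro m M _ μ K hK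
    rw [← integral_const_mul]
    refine integral_nonneg fun p => ?_
    refine (roundGB_nonneg le_rfl).trans (all_bound (K.e p) le_rfl ?_)
    rcases hK p with h | h | h
    · refine Or.inl ?_
      simpa using h
    · exact Or.inr (Or.inl h)
    · exact Or.inr (Or.inr h)
  · intro m M _ μ _ K δ hi hδ hK
    rw [← integral_const_mul]
    have h1 : roundGB m δ * μ.real Set.univ = ∫ _, roundGB m δ ∂μ := by
      rw [integral_const, smul_eq_mul, mul_comm]
    rw [h1]
    exact integral_mono (integrable_const _) (hi.const_mul _) fun p => all_bound (K.e p) hδ (hK p)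

end Pool.Agent.Results.MP_5a30bb_gt.PencilTensors
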