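import Pool.Agent.V1174.HS.D

/-!
# The Hopf sign for submanifolds of products of a flat space and spaces of nonpositive curvature

The ambient space has at a point the tangent space `A` and the curvature tensor `K`. The hypothesis
`PureNonpos b K` says that `K` is minus a sum of squares of two-forms `ξ ∧ η`, where `ξ` and `η` are
tangent to the same factor `F i`, a subspace of dimension at most `b i`. It holds (part 2 of the
theorem) for the products of a flat space, space forms of nonpositive curvature, surfaces and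
three-manifolds of nonpositive sectional curvature, with `b i` the dimensions of the factors which are
not flat.

The tangent space `V` of the submanifold has dimension `2 m`; `β` is the second fundamental form, with
values in the normal space `W`; the curvature tensor is given by the Gauss equation.

In the expansion of the integrand the ambient curvature can be used in at most
`r = ∑ i, b i / 2` (integer parts) of the `m` places: `2 (r + 1)` covectors of the factors are linearly
dependent. So the sign of the part given by the second fundamental form is needed only on subspaces of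
dimension `2 k`, `m - r ≤ k ≤ m`, where the codimension may be as large as `m - r`.
-/

set_option autoImplicit false

namespace Pool.Agent.Results.MP_5a30bb_gt.SubmanifoldsOfProducts

open Pool.Agent.W666.GB Pool.Agent.W669.HD MeasureTheory

variable {V W A : Type} [NormedAddCommGroup V] [InnerProductSpace ℝ V]
  [NormedAddCommGroup W] [InnerProductSpace ℝ W] [NormedAddCommGroup A] [InnerProductSpace ℝ A]

/-- second fundamental forms: symmetric bilinear maps from the tangent space `V` to the normal
space `W` -/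
structure SecondForm (β : V → V → W) : Prop where
  symm : ∀ x y, β x y = β y x
  add : ∀ x x' y, β (x + x') y = β x y + β x' y
  smul : ∀ (t : ℝ) (x y : V), β (t • x) y = t • β x y

/-- the part of the curvature tensor given by the second fundamental form (Gauss equation) -/
noncomputable def extR (β : V → V → W) (x y z w : V) : ℝ :=
  inner ℝ (β x z) (β y w) - inner ℝ (β x w) (β y z)

/-- the extrinsic sectional curvatures are nonpositive -/
def ExtNonpos (β : V → V → W) : Prop :=
  ∀ x y : V, inner ℝ (β x x) (β y y) - ‖β x y‖ ^ 2 ≤ 0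

/-- no shape operator is positive definite on a subspace of dimension larger than `k` -/
def Saddle (k : ℕ) (β : V → V → W) : Prop :=
  ∀ (ξ : W) (U : Submodule ℝ V), (∀ x ∈ U, x ≠ 0 → 0 < inner ℝ ξ (β x x)) →
    Module.finrank ℝ U ≤ k

/-- the square of the two-form `ξ ∧ η` -/
noncomputable def sq (ξ η x y z w : A) : ℝ :=
  (inner ℝ ξ x * inner ℝ η y - inner ℝ ξ y * inner ℝ η x) *
    (inner ℝ ξ z * inner ℝ η w - inner ℝ ξ w * inner ℝ η z)

/-- `K` is minus a sum of squares of two-forms `ξ ∧ η` with `ξ` and `η` in the same factor `F i`,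
and `F i` has dimension at most `b i` -/
def PureNonpos {s : ℕ} (b : Fin s → ℕ) (K : A → A → A → A → ℝ) : Prop :=
  ∃ (F : Fin s → Submodule ℝ A) (n : ℕ) (ξ η : Fin n → A) (i : Fin n → Fin s),
    (∀ j, Module.finrank ℝ (F j) ≤ b j) ∧ (∀ k, ξ k ∈ F (i k)) ∧ (∀ k, η k ∈ F (i k)) ∧
    ∀ x y z w, K x y z w = - ∑ k, sq (ξ k) (η k) x y z w

/-- The hypothesis on the second fundamental form: the extrinsic sectional curvatures are
nonpositive and the codimension is at most `3` or at most `m - r`; or no shape operator is definite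
on more than `m - r` dimensions. -/
def Low (m r : ℕ) (β : V → V → W) : Prop :=
  (ExtNonpos β ∧ (Module.finrank ℝ W ≤ 3 ∨ Module.finrank ℝ W + r ≤ m)) ∨
    ∃ k, Saddle k β ∧ k + r ≤ m

/-- the bilinear map -/
def SecondForm.map {β : V → V → W} (h : SecondForm β) : V →ₗ[ℝ] V →ₗ[ℝ] W :=
  LinearMap.mk₂ ℝ β h.add h.smul
    (fun x y y' => by rw [h.symm, h.add, h.symm y, h.symm y'])
    (fun t x y => by rw [h.symm, h.smul, h.symm y])

theorem low_sign [FiniteDimensional ℝ W] {m r : ℕ} {β : V → V → W} (hs : SecondForm β)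
    (h : Low m r β) {k : ℕ} (hk : m ≤ k + r) (E : Submodule ℝ V)
    (ε : OrthonormalBasis (Fin k × Bool) ℝ E) :
    0 ≤ (-1) ^ k * gbc ε (fun x y z w : E => extR β x y z w) := by
  rcases h with ⟨hK, hc⟩ | ⟨j, hj, hjr⟩
  · refine Pool.Agent.V1174.HS.ext_sign hs.map hs.symm (k := k) (by omega) (fun x y => ?_) E ε
    rw [Pool.Agent.Y489.SM.gauss_sec hs.symm]
    exact hK x y
  · exact Pool.Agent.V1174.HS.saddle_sign hs.map hs.symm (k := k)
      (fun ξ U hU => (hj ξ U hU).trans (by omega)) E ε

theorem bound [FiniteDimensional ℝ W] [FiniteDimensional ℝ A] {m : ℕ}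
    (e : OrthonormalBasis (Fin m × Bool) ℝ V) {β : V → V → W} (ι : V →ₗᵢ[ℝ] A) {s : ℕ}
    {b : Fin s → ℕ} {K : A → A → A → A → ℝ} {R : V → V → V → V → ℝ} (hs : SecondForm β)
    (hK : PureNonpos b K) (hl : Low m (∑ i, b i / 2) β)
    (hR : ∀ x y z w, R x y z w = extR β x y z w + K (ι x) (ι y) (ι z) (ι w)) :
    0 ≤ (-1) ^ m * gbc e (extR β) ∧ (-1) ^ m * gbc e (extR β) ≤ (-1) ^ m * gbc e R := by
  obtain ⟨F, n, ξ, η, i, hF, hξ, hη, hsq⟩ := hK
  constructor
  · have h := Pool.Agent.Y489.SM.criterion e hs.map hs.symm (c := 0) le_rfl (fun k _ _ hk => by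
      obtain rfl := hk rfl
      rcases hl with ⟨hE, hc⟩ | ⟨j, hj, hjr⟩
      · refine Or.inr ⟨by omega, fun x y => ?_⟩
        rw [Pool.Agent.Y489.SM.gauss_sec hs.symm]
        exact hE x y
      · exact Or.inl fun ζ => Pool.Agent.Y489.SM.saddle_coeff e hs.map hs.symm
          (fun ξ U hU => (hj ξ U hU).trans (by omega)) ζ)
    have h2 : Pool.Agent.Y489.SM.shift 0 (Pool.Agent.Y489.SM.gauss hs.map) = extR β := by
      funext x y z w
      simp only [Pool.Agent.Y489.SM.shift, zero_mul, sub_zero]
      rfl
    rw [h2] at h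
    exact (roundGB_nonneg le_rfl).trans h
  · refine Pool.Agent.V1174.HS.sub_bound e hs.map hs.symm F hF i hξ hη ι (R := R) ?_ ?_
    · intro x y z w
      rw [hR, hsq]
      exact sub_eq_add_neg _ _ |>.symm
    · intro k hk _ E ε
      exact low_sign hs hl hk E ε

/-- The pointwise inequality, in every even dimension `2 m`: for an ambient space with a flat factor
and factors of dimensions `b i` with the hypothesis `PureNonpos`, if the extrinsic curvatures are
nonpositive and the codimension is at most `3` or at most `m - ∑ i, b i / 2`, and if no shape operator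
is definite on more than `m - ∑ i, b i / 2` dimensions. -/
def PointwiseSign : Prop :=
  ∀ (m : ℕ) (V W A : Type) [NormedAddCommGroup V] [InnerProductSpace ℝ V]
    [NormedAddCommGroup W] [InnerProductSpace ℝ W] [NormedAddCommGroup A]
    [InnerProductSpace ℝ A] [FiniteDimensional ℝ W] [FiniteDimensional ℝ A]
    (e : OrthonormalBasis (Fin m × Bool) ℝ V) (β : V → V → W) (ι : V →ₗᵢ[ℝ] A) (s : ℕ)
    (b : Fin s → ℕ) (K : A → A → A → A → ℝ) (R : V → V → V → V → ℝ),
    SecondForm β → PureNonpos b K → Low m (∑ i, b i / 2) β →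
    (∀ x y z w, R x y z w = extR β x y z w + K (ι x) (ι y) (ι z) (ι w)) →
      0 ≤ (-1) ^ m * gbc e (extR β) ∧ (-1) ^ m * gbc e (extR β) ≤ (-1) ^ m * gbc e R

/-- The tensor `K` of a factor `F`: constant curvature `-c ≤ 0`, or nonpositive sectional curvature
and dimension at most three. -/
def Factor (F : Submodule ℝ A) (K : A → A → A → A → ℝ) : Prop :=
  AlgCurv K ∧ LivesOn F K ∧ ((Module.finrank ℝ F ≤ 3 ∧ ∀ x y, K x y x y ≤ 0) ∨
    ∃ c : ℝ, 0 ≤ c ∧ ∀ x ∈ F, ∀ y ∈ F, ∀ z ∈ F, ∀ w ∈ F,
      K x y z w = - (c * (inner ℝ x z * inner ℝ y w - inner ℝ x w * inner ℝ y z)))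

/-- The hypothesis on the ambient space holds for products of a flat space, space forms of
nonpositive curvature, and factors of dimension at most three of nonpositive sectional curvature. -/
def ProductsPure : Prop :=
  ∀ (A : Type) [NormedAddCommGroup A] [InnerProductSpace ℝ A] [FiniteDimensional ℝ A] (s : ℕ)
    (F : Fin s → Submodule ℝ A) (K : Fin s → A → A → A → A → ℝ), (∀ i, Factor (F i) (K i)) →
      PureNonpos (fun i => Module.finrank ℝ (F i)) fun x y z w : A => ∑ i, K i x y z w

/-- the integrated form -/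
def IntegratedSign : Prop :=
  ∀ (m : ℕ) (M : Type) [MeasurableSpace M] (μ : Measure M) (K : CurvField m M),
    (∀ p, ∃ (q a s : ℕ) (b : Fin s → ℕ) (β : K.V p → K.V p → EuclideanSpace ℝ (Fin q))
      (ι : K.V p →ₗᵢ[ℝ] EuclideanSpace ℝ (Fin a))
      (T : EuclideanSpace ℝ (Fin a) → EuclideanSpace ℝ (Fin a) → EuclideanSpace ℝ (Fin a) →
        EuclideanSpace ℝ (Fin a) → ℝ),
      SecondForm β ∧ PureNonpos b T ∧ Low m (∑ i, b i / 2) β ∧
      ∀ x y z w, K.R p x y z w = extR β x y z w + T (ι x) (ι y) (ι z) (ι w)) →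
    0 ≤ (-1) ^ m * ∫ p, K.gb p ∂μ

/-- The general principle: adding the curvature of the factors does not decrease `(-1)^m` times the
integrand of any tensor `S` which has the Hopf sign on subspaces of dimension `2 k`,
`m - ∑ i, b i / 2 ≤ k < m`. -/
def GeneralPrinciple : Prop :=
  ∀ (m : ℕ) (V : Type) [NormedAddCommGroup V] [InnerProductSpace ℝ V]
    (e : OrthonormalBasis (Fin m × Bool) ℝ V) (s : ℕ) (b : Fin s → ℕ)
    (S T : V → V → V → V → ℝ), AlgCurv S → PureNonpos b T →
    (∀ k, m ≤ k + ∑ i, b i / 2 → k < m → ∀ (E : Submodule ℝ V)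
      (ε : OrthonormalBasis (Fin k × Bool) ℝ E),
      0 ≤ (-1) ^ k * gbc ε (fun x y z w : E => S x y z w)) →
    (-1) ^ m * gbc e S ≤ (-1) ^ m * gbc e (addT S T)

/-- **The Hopf sign for submanifolds of products** of a flat space and spaces of nonpositive
curvature. -/
theorem result : PointwiseSign ∧ ProductsPure ∧ IntegratedSign ∧ GeneralPrinciple := by
  refine ⟨?_, ?_, ?_, ?_⟩
  · intro m V W A _ _ _ _ _ _ _ _ e β ι s b K R hs hK hl hR
    exact bound e ι hs hK hl hR
  · intro A _ _ _ s F K h
    obtain ⟨n, ξ, η, idx, hξ, hη, hsum⟩ := Pool.Agent.V1174.HS.merge F K fun i => by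
      obtain ⟨hK, hL, ⟨h3, hs⟩ | ⟨c, hc, hform⟩⟩ := h i
      · exact Pool.Agent.V1174.HS.three_negSq hK hL h3 hs
      · exact Pool.Agent.V1174.HS.form_negSq hK hL hc hform
    exact ⟨F, n, ξ, η, idx, fun _ => le_rfl, hξ, hη, hsum⟩
  · intro m M _ μ K h
    rw [← integral_const_mul]
    refine integral_nonneg fun p => ?_
    obtain ⟨q, a, s, b, β, ι, T, hs, hT, hl, hR⟩ := h p
    have h1 := bound (K.e p) ι hs hT hl hR
    exact h1.1.trans h1.2
  · intro m V _ _ e s b S T hS hT hH
    obtain ⟨F, n, ξ, η, idx, hF, hξ, hη, h⟩ := hT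
    exact Pool.Agent.V1174.HS.partial_super e F hF idx hξ hη hS hH h

end Pool.Agent.Results.MP_5a30bb_gt.SubmanifoldsOfProducts
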